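import Mathlib
import Pool.Agent.J795.RepQ.Main

/-! Representability of finite local rings of characteristic `p ^ 2`, with any residue field,
and more generally of those in which `p ^ 2 R` meets the commutator ideal trivially. -/

set_option autoImplicit false

namespace Pool.Agent.Results.MP_4a16d5_al.AnyResidueField

/-- The two-sided ideal generated by all ring commutators `x * y - y * x`, as an additive
subgroup: it consists of the finite sums of elements `± u * (x * y - y * x) * v`. -/
def commIdeal (R : Type) [Ring R] : AddSubgroup R :=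
  AddSubgroup.closure {z : R | ∃ u x y v : R, z = u * (x * y - y * x) * v}

/-- The same set as a left ideal. -/
private def commI (R : Type) [Ring R] : Ideal R :=
  { carrier := commIdeal R
    add_mem' := fun {_ _} ha hb => (commIdeal R).add_mem ha hb
    zero_mem' := (commIdeal R).zero_mem
    smul_mem' := by
      intro c z hz
      change z ∈ AddSubgroup.closure _ at hz
      change c • z ∈ AddSubgroup.closure _
      induction hz using AddSubgroup.closure_induction with
      | mem z hz =>
        obtain ⟨u, x, y, v, rfl⟩ := hz
        refine AddSubgroup.subset_closure ⟨c * u, x, y, v, ?_⟩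
        rw [smul_eq_mul]; noncomm_ring
      | zero => rw [smul_zero]; exact AddSubgroup.zero_mem _
      | add a b _ _ ha hb => rw [smul_add]; exact AddSubgroup.add_mem _ ha hb
      | neg a _ ha => rw [smul_neg]; exact AddSubgroup.neg_mem _ ha }

private theorem commI_twoSided (R : Type) [Ring R] : (commI R).IsTwoSided := ⟨by
  intro z c hz
  change z ∈ AddSubgroup.closure _ at hz
  change z * c ∈ AddSubgroup.closure _
  induction hz using AddSubgroup.closure_induction with
  | mem z hz =>
    obtain ⟨u, x, y, v, rfl⟩ := hz
    refine AddSubgroup.subset_closure ⟨u, x, y, v * c, ?_⟩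
    noncomm_ring
  | zero => rw [zero_mul]; exact AddSubgroup.zero_mem _
  | add a b _ _ ha hb => rw [add_mul]; exact AddSubgroup.add_mem _ ha hb
  | neg a _ ha => rw [neg_mul]; exact AddSubgroup.neg_mem _ ha⟩

/-- Let `R` be a finite local ring and `p` a prime that is not a unit of `R`.  If no nonzero
multiple of `p ^ 2` lies in the commutator ideal of `R` (for example, if `p ^ 2 = 0` in `R`), then
`R` embeds in a ring of matrices over a commutative ring. -/
theorem result (R : Type) [Ring R] [Finite R] [IsLocalRing R] (p : ℕ) (hp : p.Prime)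
    (hpR : ¬ IsUnit (p : R))
    (h : ∀ a : R, (p : R) ^ 2 * a ∈ commIdeal R → (p : R) ^ 2 * a = 0) :
    ∃ (n : ℕ) (K : Type) (_ : CommRing K) (f : R →+* Matrix (Fin n) (Fin n) K),
      1 ≤ n ∧ Function.Injective f := by
  have : Fact p.Prime := ⟨hp⟩
  have : (commI R).IsTwoSided := commI_twoSided R
  have key : Pool.Agent.J795.Rep.Repr R := by
    by_cases hL : commI R = ⊤
    · refine Pool.Agent.J795.RepQ.full p hpR ?_
      have h1 := h 1 (by
        change (p : R) ^ 2 * 1 ∈ commI R
        rw [hL]
        exact Submodule.mem_top)
      rwa [mul_one, sq] at h1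
    · refine Pool.Agent.J795.RepQ.fullMain p hpR (commI R) hL ?_ h
      refine Pool.Agent.J795.Rep.repr_comm' ?_
      intro x y
      obtain ⟨x, rfl⟩ := Ideal.Quotient.mk_surjective x
      obtain ⟨y, rfl⟩ := Ideal.Quotient.mk_surjective y
      rw [← map_mul, ← map_mul, ← sub_eq_zero, ← map_sub, Ideal.Quotient.eq_zero_iff_mem]
      exact AddSubgroup.subset_closure ⟨1, x, y, 1, by rw [one_mul, mul_one]⟩
  obtain ⟨K, hK, n, f, hf⟩ := key
  refine ⟨n, K, hK, f, ?_, hf⟩
  by_contra hn
  have hn0 : n = 0 := by omega
  subst hn0
  exact zero_ne_one (α := R) (hf (Subsingleton.elim _ _))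

end Pool.Agent.Results.MP_4a16d5_al.AnyResidueField
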